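import Pool.Agent.Lib.MP_ba0fa5_ag.Iface

/-!
MP_ba0fa5_ag, module NTSUM.
-/

namespace Pool.Agent.Lib.MP_ba0fa5_ag.H51

open scoped Classical
open Finset

/-! ### the bound for `Psi t * t / φ t` -/

theorem psi_pos (t : ℕ) : 0 < Psi t := by
  unfold Psi
  apply Finset.prod_pos
  intro l hl
  positivity

theorem one_le_psi (t : ℕ) : 1 ≤ Psi t := by
  unfold Psi
  calc (1 : ℝ) = ∏ l ∈ t.primeFactors, (1 : ℝ) := by rw [Finset.prod_const_one]
    _ ≤ ∏ l ∈ t.primeFactors, (1 + 52 / (l : ℝ)) := by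
        apply Finset.prod_le_prod
        · intro l hl
          norm_num
        · intro l hl
          have : (0 : ℝ) ≤ 52 / (l : ℝ) := by positivity
          linarith

theorem inv_le_half {l : ℕ} (hl : 2 ≤ l) : (l : ℝ)⁻¹ ≤ 1 / 2 := by
  have h2 : (2 : ℝ) ≤ l := by exact_mod_cast hl
  rw [one_div]
  exact inv_anti₀ (by norm_num) h2

/-- the local factor -/
noncomputable def fl (l : ℕ) : ℝ := (1 + 52 / (l : ℝ)) * (1 - (l : ℝ)⁻¹)⁻¹

theorem fl_nonneg {l : ℕ} (hl : 2 ≤ l) : 0 ≤ fl l := by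
  unfold fl
  have h2 : (2 : ℝ) ≤ l := by exact_mod_cast hl
  have : (l : ℝ)⁻¹ ≤ 1 := by
    rw [inv_le_one₀ (by linarith)]
    linarith
  apply mul_nonneg
  · positivity
  · apply inv_nonneg.mpr
    linarith

theorem fl_le {l : ℕ} (hl : 2 ≤ l) : fl l ≤ 54 := by
  unfold fl
  have h2 : (2 : ℝ) ≤ l := by exact_mod_cast hl
  have hpos : (0 : ℝ) < l := by linarith
  have h1 : (1 + 52 / (l : ℝ)) ≤ 27 := by
    have : 52 / (l : ℝ) ≤ 26 := by
      rw [div_le_iff₀ hpos]; linarith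
    linarith
  have h3 : (1 - (l : ℝ)⁻¹)⁻¹ ≤ 2 := by
    have h4 : (l : ℝ)⁻¹ ≤ 1 / 2 := inv_le_half hl
    rw [inv_le_comm₀ (by linarith) (by norm_num)]
    linarith
  calc (1 + 52 / (l : ℝ)) * (1 - (l : ℝ)⁻¹)⁻¹ ≤ 27 * 2 := by
        apply mul_le_mul h1 h3 _ (by norm_num)
        apply inv_nonneg.mpr
        have h4 : (l : ℝ)⁻¹ ≤ 1 / 2 := inv_le_half hl
        linarith
    _ = 54 := by norm_num

theorem fl_le_two {l : ℕ} (hl : 106 ≤ l) : fl l ≤ 2 := by
  unfold fl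
  have h2 : (106 : ℝ) ≤ l := by exact_mod_cast hl
  have hpos : (0 : ℝ) < l := by linarith
  rw [← div_eq_mul_inv, div_le_iff₀]
  · have h5 : 52 / (l : ℝ) = 52 * (l : ℝ)⁻¹ := by rw [div_eq_mul_inv]
    have h6 : (l : ℝ)⁻¹ ≤ 1 / 106 := by
      rw [one_div]
      exact inv_anti₀ (by norm_num) h2
    have h7 : (0 : ℝ) ≤ (l : ℝ)⁻¹ := by positivity
    rw [h5]
    linarith
  · have h6 : (l : ℝ)⁻¹ ≤ 1 / 106 := by
      rw [one_div]
      exact inv_anti₀ (by norm_num) h2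
    linarith

theorem psi_mul_div (t : ℕ) (ht : 1 ≤ t) :
    Psi t * ((t : ℝ) / t.totient) = ∏ l ∈ t.primeFactors, fl l := by
  unfold fl Psi
  rw [Finset.prod_mul_distrib]
  congr 1
  have h := Nat.totient_eq_mul_prod_factors t
  have h' : (t.totient : ℝ) = t * ∏ p ∈ t.primeFactors, (1 - (p : ℝ)⁻¹) := by
    have := congrArg (fun x : ℚ => (x : ℝ)) h
    push_cast at this
    exact this
  have ht0 : (t : ℝ) ≠ 0 := by
    have : (0 : ℝ) < t := by exact_mod_cast ht
    exact this.ne'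
  rw [h', Finset.prod_inv_distrib]
  have hp : (∏ p ∈ t.primeFactors, (1 - (p : ℝ)⁻¹)) ≠ 0 := by
    apply Finset.prod_ne_zero_iff.mpr
    intro p hp
    have h2 : (2 : ℝ) ≤ p := by exact_mod_cast (Nat.prime_of_mem_primeFactors hp).two_le
    have : (p : ℝ)⁻¹ ≤ 1 / 2 := inv_le_half (Nat.prime_of_mem_primeFactors hp).two_le
    intro h0
    linarith
  field_simp

/-- `Psi t * t / φ t ≤ A t ^ δ`. -/
theorem psi_bound (δ : ℝ) (hδ : 0 < δ) : ∃ A : ℝ, 1 ≤ A ∧ ∀ t : ℕ, 1 ≤ t →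
    Psi t * ((t : ℝ) / t.totient) ≤ A * (t : ℝ) ^ δ := by
  obtain ⟨l0, hl0⟩ := exists_nat_ge ((2 : ℝ) ^ (1 / δ))
  set L := max l0 106 with hL
  refine ⟨54 ^ L, one_le_pow₀ (by norm_num), ?_⟩
  intro t ht
  rw [psi_mul_div t ht]
  have hprime : ∀ l ∈ t.primeFactors, 2 ≤ l := fun l hl => (Nat.prime_of_mem_primeFactors hl).two_le
  have h1 : ∏ l ∈ t.primeFactors, fl l ≤
      ∏ l ∈ t.primeFactors, ((if l < L then (54 : ℝ) else 1) * (l : ℝ) ^ δ) := by
    apply Finset.prod_le_prod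
    · intro l hl
      exact fl_nonneg (hprime l hl)
    · intro l hl
      have h2 : (2 : ℝ) ≤ l := by exact_mod_cast hprime l hl
      by_cases hc : l < L
      · rw [if_pos hc]
        have h3 : (1 : ℝ) ≤ (l : ℝ) ^ δ := Real.one_le_rpow (by linarith) hδ.le
        have h4 := fl_le (hprime l hl)
        nlinarith
      · rw [if_neg hc, one_mul]
        have hge : L ≤ l := not_lt.mp hc
        have h5 : fl l ≤ 2 := fl_le_two (le_trans (le_max_right _ _) hge)
        have h6 : (2 : ℝ) ^ (1 / δ) ≤ l := by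
          refine le_trans hl0 ?_
          exact_mod_cast le_trans (le_max_left _ _) hge
        have h7 : (2 : ℝ) ≤ (l : ℝ) ^ δ := by
          calc (2 : ℝ) = ((2 : ℝ) ^ (1 / δ)) ^ δ := by
                rw [← Real.rpow_mul (by norm_num)]
                rw [one_div, inv_mul_cancel₀ hδ.ne', Real.rpow_one]
            _ ≤ (l : ℝ) ^ δ := Real.rpow_le_rpow (by positivity) h6 hδ.le
        linarith
  refine le_trans h1 ?_
  rw [Finset.prod_mul_distrib]
  apply mul_le_mul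
  · rw [Finset.prod_ite]
    rw [Finset.prod_const, Finset.prod_const_one, mul_one]
    apply pow_le_pow_right₀ (by norm_num)
    calc (t.primeFactors.filter (fun l => l < L)).card ≤ (Finset.range L).card := by
          apply Finset.card_le_card
          intro x hx
          rw [Finset.mem_filter] at hx
          exact Finset.mem_range.mpr hx.2
      _ = L := Finset.card_range L
  · rw [Real.finsetProd_rpow]
    · apply Real.rpow_le_rpow
      · apply Finset.prod_nonneg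
        intro i _
        positivity
      · have := Nat.le_of_dvd (by omega) (Nat.prod_primeFactors_dvd t)
        have h8 : ((∏ p ∈ t.primeFactors, p : ℕ) : ℝ) ≤ t := by exact_mod_cast this
        rw [Nat.cast_prod] at h8
        exact h8
      · exact hδ.le
    · intro i _
      positivity
  · apply Finset.prod_nonneg
    intro i _
    positivity
  · positivity

/-! ### the class of `n'` -/

theorem cond_class {n v n1 n2 v' t : ℕ}
    (h1 : (t : ℤ) ∣ EE n v n1 v') (h2 : (t : ℤ) ∣ EE n v n2 v')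
    (c1 : t.Coprime (n * v * (n1 * v'))) : n2 ≡ n1 [MOD t] := by
  have hd : (t : ℤ) ∣ ((n2 : ℤ) - n1) * (v' * (1 + n * v * (v - v'))) := by
    have h3 := dvd_sub h2 h1
    have e : ((n2 : ℤ) - n1) * (v' * (1 + n * v * (v - v'))) = EE n v n2 v' - EE n v n1 v' := by
      unfold EE
      ring
    rw [e]
    exact h3
  -- the second factor is coprime to `t`
  have hcop : IsCoprime (t : ℤ) ((v' : ℤ) * (1 + n * v * (v - v'))) := by
    have hnv : IsCoprime (t : ℤ) ((n : ℤ) * v) := by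
      have : t.Coprime (n * v) := Nat.Coprime.coprime_mul_right_right c1
      have h3 := Nat.isCoprime_iff_coprime.mpr this
      push_cast at h3
      exact h3
    have h4 : IsCoprime (t : ℤ) ((n1 : ℤ) * (v' * (1 + n * v * (v - v')))) := by
      obtain ⟨k, hk⟩ := h1
      have h5 : (n1 : ℤ) * (v' * (1 + n * v * (v - v'))) = n * v + t * k := by
        rw [← hk]
        unfold EE
        ring
      rw [h5]
      exact hnv.add_mul_left_right k
    exact h4.of_mul_right_right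
  have h6 : (t : ℤ) ∣ (n2 : ℤ) - n1 := hcop.dvd_of_dvd_mul_right hd
  have h7 : (n1 : ℤ) ≡ n2 [ZMOD t] := (Int.modEq_iff_dvd).mpr h6
  exact ((Int.natCast_modEq_iff).mp h7).symm

theorem inner_le (S : Set ℕ) (K : ℕ) (C1 : ℝ) (C2 : ℝ) (Z : ℕ)
    (h1 : ∀ t a : ℕ, 1 ≤ t → t ^ 2 ≤ Z → a.Coprime t →
      ∑ n ∈ (qset S Z (Z ^ K)).filter (fun n => n ≡ a [MOD t]), (1 : ℝ) / n ≤
        C1 * (Real.log Z) ^ (1 / 4 : ℝ) / t.totient)
    (h2 : ∀ t a : ℕ, 1 ≤ t →
      ∑ n ∈ (Finset.Ioc Z (Z ^ K)).filter (fun n => n ≡ a [MOD t]), (1 : ℝ) / n ≤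
        1 / Z + C2 * Real.log Z / t)
    (hC1 : 0 ≤ C1) (hC2 : 0 ≤ C2) (_hlog : 0 ≤ Real.log Z)
    (n v v' t : ℕ) (ht : 1 ≤ t) :
    ∑ n' ∈ (qset S Z (Z ^ K)).filter (fun n' => (t : ℤ) ∣ EE n v n' v' ∧
        t.Coprime (n * v * (n' * v'))), (1 : ℝ) / n' ≤
      if t ^ 2 ≤ Z then C1 * (Real.log Z) ^ (1 / 4 : ℝ) / t.totient
        else 1 / Z + C2 * Real.log Z / t := by
  by_cases hne : ((qset S Z (Z ^ K)).filter (fun n' => (t : ℤ) ∣ EE n v n' v' ∧
        t.Coprime (n * v * (n' * v')))).Nonempty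
  · obtain ⟨n1, hn1⟩ := hne
    rw [Finset.mem_filter] at hn1
    have hsub : (qset S Z (Z ^ K)).filter (fun n' => (t : ℤ) ∣ EE n v n' v' ∧
        t.Coprime (n * v * (n' * v'))) ⊆ (qset S Z (Z ^ K)).filter (fun n => n ≡ n1 [MOD t]) := by
      intro n2 hn2
      rw [Finset.mem_filter] at hn2 ⊢
      exact ⟨hn2.1, cond_class hn1.2.1 hn2.2.1 hn1.2.2⟩
    have hle : ∑ n' ∈ (qset S Z (Z ^ K)).filter (fun n' => (t : ℤ) ∣ EE n v n' v' ∧
        t.Coprime (n * v * (n' * v'))), (1 : ℝ) / n' ≤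
        ∑ n ∈ (qset S Z (Z ^ K)).filter (fun n => n ≡ n1 [MOD t]), (1 : ℝ) / n :=
      Finset.sum_le_sum_of_subset_of_nonneg hsub (fun i _ _ => by positivity)
    split_ifs with hc
    · refine le_trans hle (h1 t n1 ht hc ?_)
      have : t.Coprime (n1 * v') := Nat.Coprime.coprime_mul_left_right hn1.2.2
      exact (Nat.Coprime.coprime_mul_right_right this).symm
    · refine le_trans hle (le_trans ?_ (h2 t n1 ht))
      apply Finset.sum_le_sum_of_subset_of_nonneg _ (fun i _ _ => by positivity)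
      intro x hx
      rw [Finset.mem_filter] at hx ⊢
      unfold qset at hx
      rw [Finset.mem_filter] at hx
      exact ⟨hx.1.1, hx.2⟩
  · rw [Finset.not_nonempty_iff_eq_empty] at hne
    rw [hne, Finset.sum_empty]
    split_ifs <;> positivity

/-! ### the weights -/

/-- `w t = Psi t / φ t` -/
theorem w_le {δ A : ℝ} (hA : ∀ t : ℕ, 1 ≤ t → Psi t * ((t : ℝ) / t.totient) ≤ A * (t : ℝ) ^ δ)
    {t : ℕ} (ht : 1 ≤ t) : Psi t / t.totient ≤ A * (t : ℝ) ^ (δ - 1) := by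
  have h := hA t ht
  have htp : (0 : ℝ) < t := by exact_mod_cast ht
  have hphi : (0 : ℝ) < t.totient := by exact_mod_cast Nat.totient_pos.mpr ht
  rw [Real.rpow_sub_one htp.ne']
  rw [div_le_iff₀ hphi]
  rw [← mul_div_assoc, div_le_iff₀ hphi] at h
  rw [mul_div_assoc', div_mul_eq_mul_div, le_div_iff₀ htp]
  exact h

theorem one_div_phi_le {δ A : ℝ}
    (hA : ∀ t : ℕ, 1 ≤ t → Psi t * ((t : ℝ) / t.totient) ≤ A * (t : ℝ) ^ δ)
    {t : ℕ} (ht : 1 ≤ t) : 1 / (t.totient : ℝ) ≤ A * (t : ℝ) ^ (δ - 1) := by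
  refine le_trans ?_ (w_le hA ht)
  have hphi : (0 : ℝ) < t.totient := by exact_mod_cast Nat.totient_pos.mpr ht
  exact div_le_div_of_nonneg_right (one_le_psi t) hphi.le

theorem sum_series (s : ℝ) (hs : 1 < s) : ∃ c : ℝ, 0 ≤ c ∧ ∀ F : Finset ℕ,
    ∑ t ∈ F, (1 : ℝ) / (t : ℝ) ^ s ≤ c := by
  have h : Summable (fun n : ℕ => 1 / (n : ℝ) ^ s) := Real.summable_one_div_nat_rpow.mpr hs
  refine ⟨∑' n : ℕ, 1 / (n : ℝ) ^ s, tsum_nonneg (fun n => by positivity), ?_⟩
  intro F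
  exact h.sum_le_tsum F (fun n _ => by positivity)

/-- the sum over `t`. -/
theorem tsum_bound (K : ℕ) (hK : 3 ≤ K) (C1 C2 : ℝ) (hC1 : 0 ≤ C1) (hC2 : 0 ≤ C2) :
    ∃ C : ℝ, 0 ≤ C ∧ ∀ Z : ℕ, 3 ≤ Z →
      ∑ t ∈ Finset.Icc 1 (2 * Z ^ (5 * K)), (Psi t / t.totient) *
        (if t ^ 2 ≤ Z then C1 * (Real.log Z) ^ (1 / 4 : ℝ) / t.totient
          else 1 / Z + C2 * Real.log Z / t) ≤ C * (Real.log Z) ^ (1 / 4 : ℝ) := by
  set δ : ℝ := 1 / (40 * K) with hδ
  have hKr : (3 : ℝ) ≤ K := by exact_mod_cast hK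
  have hδ0 : 0 < δ := by positivity
  have hδ1 : δ ≤ 1 / 120 := by
    rw [hδ]
    apply one_div_le_one_div_of_le (by norm_num)
    linarith
  obtain ⟨A, hA1, hA⟩ := psi_bound δ hδ0
  have hA0 : 0 ≤ A := by linarith
  obtain ⟨c, hc0, hc⟩ := sum_series (1 + δ) (by linarith)
  refine ⟨A * A * C1 * c + 2 * A * c + 8 * A * C2 * c, by positivity, ?_⟩
  intro Z hZ
  have hZr : (3 : ℝ) ≤ Z := by exact_mod_cast hZ
  have hZp : (0 : ℝ) < Z := by linarith
  have hlog1 : 1 ≤ Real.log Z := by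
    rw [Real.le_log_iff_exp_le hZp]
    have := Real.exp_one_lt_d9
    linarith
  have hlog4 : 1 ≤ (Real.log Z) ^ (1 / 4 : ℝ) := Real.one_le_rpow hlog1 (by norm_num)
  have key : ∀ t ∈ Finset.Icc 1 (2 * Z ^ (5 * K)), (Psi t / t.totient) *
        (if t ^ 2 ≤ Z then C1 * (Real.log Z) ^ (1 / 4 : ℝ) / t.totient
          else 1 / Z + C2 * Real.log Z / t) ≤
      (A * A * C1 + 2 * A + 8 * A * C2) * (Real.log Z) ^ (1 / 4 : ℝ) *
        (1 / (t : ℝ) ^ (1 + δ)) := by
    intro t ht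
    rw [Finset.mem_Icc] at ht
    have ht1 : 1 ≤ t := ht.1
    have htp : (0 : ℝ) < t := by exact_mod_cast ht1
    have ht1r : (1 : ℝ) ≤ t := by exact_mod_cast ht1
    have hphi : (0 : ℝ) < t.totient := by exact_mod_cast Nat.totient_pos.mpr ht1
    have hw := w_le hA ht1
    have hw0 : 0 ≤ Psi t / t.totient := div_nonneg (psi_pos t).le hphi.le
    have h1p := one_div_phi_le hA ht1
    have hs0 : 0 < 1 / (t : ℝ) ^ (1 + δ) := by positivity
    by_cases hc2 : t ^ 2 ≤ Z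
    · rw [if_pos hc2]
      have e1 : (Psi t / t.totient) * (C1 * (Real.log Z) ^ (1 / 4 : ℝ) / t.totient) =
          C1 * (Real.log Z) ^ (1 / 4 : ℝ) * ((Psi t / t.totient) * (1 / t.totient)) := by
        field_simp
      have e2 : (Psi t / t.totient) * (1 / t.totient) ≤ A * A * (1 / (t : ℝ) ^ (1 + δ)) := by
        calc (Psi t / t.totient) * (1 / t.totient) ≤ (A * (t : ℝ) ^ (δ - 1)) *
              (A * (t : ℝ) ^ (δ - 1)) := by
              apply mul_le_mul hw h1p (by positivity) (by positivity)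
          _ = A * A * (t : ℝ) ^ (2 * δ - 2) := by
              have : (t : ℝ) ^ (2 * δ - 2) = (t : ℝ) ^ (δ - 1) * (t : ℝ) ^ (δ - 1) := by
                rw [← Real.rpow_add htp]
                ring_nf
              rw [this]
              ring
          _ ≤ A * A * (1 / (t : ℝ) ^ (1 + δ)) := by
              apply mul_le_mul_of_nonneg_left _ (by positivity)
              rw [one_div, ← Real.rpow_neg htp.le]
              apply Real.rpow_le_rpow_of_exponent_le ht1r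
              linarith
      rw [e1]
      calc C1 * (Real.log Z) ^ (1 / 4 : ℝ) * ((Psi t / t.totient) * (1 / t.totient))
          ≤ C1 * (Real.log Z) ^ (1 / 4 : ℝ) * (A * A * (1 / (t : ℝ) ^ (1 + δ))) := by
            apply mul_le_mul_of_nonneg_left e2 (by positivity)
        _ = (A * A * C1) * ((Real.log Z) ^ (1 / 4 : ℝ) * (1 / (t : ℝ) ^ (1 + δ))) := by ring
        _ ≤ (A * A * C1 + 2 * A + 8 * A * C2) *
              ((Real.log Z) ^ (1 / 4 : ℝ) * (1 / (t : ℝ) ^ (1 + δ))) := by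
            apply mul_le_mul_of_nonneg_right _ (by positivity)
            have : 0 ≤ 2 * A + 8 * A * C2 := by positivity
            linarith
        _ = _ := by ring
    · rw [if_neg hc2]
      have hlt : (Z : ℝ) < (t : ℝ) ^ (2 : ℝ) := by
        have : Z < t ^ 2 := not_le.mp hc2
        rw [Real.rpow_two]
        exact_mod_cast this
      have hupper : (t : ℝ) ≤ 2 * (Z : ℝ) ^ (5 * K) := by
        exact_mod_cast ht.2
      -- first part
      have p1 : (Psi t / t.totient) * (1 / Z) ≤ 2 * A * (1 / (t : ℝ) ^ (1 + δ)) := by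
        have q1 : (t : ℝ) ^ (2 * δ) ≤ 2 * Z := by
          calc (t : ℝ) ^ (2 * δ) ≤ (2 * (Z : ℝ) ^ (5 * K)) ^ (2 * δ) :=
                Real.rpow_le_rpow htp.le hupper (by positivity)
            _ = 2 ^ (2 * δ) * ((Z : ℝ) ^ (5 * K)) ^ (2 * δ) := by
                rw [Real.mul_rpow (by norm_num) (by positivity)]
            _ ≤ 2 * Z := by
                apply mul_le_mul _ _ (by positivity) (by norm_num)
                · calc (2 : ℝ) ^ (2 * δ) ≤ 2 ^ (1 : ℝ) :=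
                        Real.rpow_le_rpow_of_exponent_le (by norm_num) (by linarith)
                    _ = 2 := Real.rpow_one 2
                · rw [← Real.rpow_natCast, ← Real.rpow_mul hZp.le]
                  calc (Z : ℝ) ^ (((5 * K : ℕ) : ℝ) * (2 * δ)) ≤ (Z : ℝ) ^ (1 : ℝ) := by
                        apply Real.rpow_le_rpow_of_exponent_le (by linarith)
                        rw [hδ]
                        push_cast
                        field_simp
                        norm_num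
                    _ = Z := Real.rpow_one _
        have q2 : (t : ℝ) ^ (δ - 1) = (t : ℝ) ^ (2 * δ) * (1 / (t : ℝ) ^ (1 + δ)) := by
          rw [one_div, ← Real.rpow_neg htp.le, ← Real.rpow_add htp]
          ring_nf
        calc (Psi t / t.totient) * (1 / Z) ≤ (A * (t : ℝ) ^ (δ - 1)) * (1 / Z) := by
              apply mul_le_mul_of_nonneg_right hw (by positivity)
          _ = A * ((t : ℝ) ^ (2 * δ) * (1 / Z)) * (1 / (t : ℝ) ^ (1 + δ)) := by
              rw [q2]; ring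
          _ ≤ A * 2 * (1 / (t : ℝ) ^ (1 + δ)) := by
              apply mul_le_mul_of_nonneg_right _ (by positivity)
              apply mul_le_mul_of_nonneg_left _ hA0
              rw [mul_one_div, div_le_iff₀ hZp]
              exact q1
          _ = 2 * A * (1 / (t : ℝ) ^ (1 + δ)) := by ring
      -- second part
      have p2 : (Psi t / t.totient) * (C2 * Real.log Z / t) ≤
          8 * A * C2 * (1 / (t : ℝ) ^ (1 + δ)) := by
        have q1 : Real.log Z ≤ 8 * (t : ℝ) ^ (1 / 4 : ℝ) := by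
          have r1 : Real.log Z ≤ 8 * (Z : ℝ) ^ (1 / 8 : ℝ) := by
            have := Real.log_le_rpow_div hZp.le (by norm_num : (0 : ℝ) < 1 / 8)
            calc Real.log Z ≤ (Z : ℝ) ^ (1 / 8 : ℝ) / (1 / 8) := this
              _ = 8 * (Z : ℝ) ^ (1 / 8 : ℝ) := by ring
          have r2 : (Z : ℝ) ^ (1 / 8 : ℝ) ≤ (t : ℝ) ^ (1 / 4 : ℝ) := by
            calc (Z : ℝ) ^ (1 / 8 : ℝ) ≤ ((t : ℝ) ^ (2 : ℝ)) ^ (1 / 8 : ℝ) :=
                  Real.rpow_le_rpow hZp.le hlt.le (by norm_num)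
              _ = (t : ℝ) ^ (1 / 4 : ℝ) := by
                  rw [← Real.rpow_mul htp.le]
                  norm_num
          linarith
        have q2 : (t : ℝ) ^ (δ - 1) * ((t : ℝ) ^ (1 / 4 : ℝ) / t) ≤ 1 / (t : ℝ) ^ (1 + δ) := by
          have : (t : ℝ) ^ (δ - 1) * ((t : ℝ) ^ (1 / 4 : ℝ) / t) =
              (t : ℝ) ^ (δ - 1 + 1 / 4 - 1) := by
            rw [Real.rpow_sub_one htp.ne' (δ - 1 + 1 / 4), Real.rpow_add htp]
            ring
          have e3 : (1 : ℝ) / (t : ℝ) ^ (1 + δ) = (t : ℝ) ^ (-(1 + δ)) := by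
            rw [Real.rpow_neg htp.le, one_div]
          rw [this, e3]
          apply Real.rpow_le_rpow_of_exponent_le ht1r
          linarith
        calc (Psi t / t.totient) * (C2 * Real.log Z / t)
            ≤ (A * (t : ℝ) ^ (δ - 1)) * (C2 * (8 * (t : ℝ) ^ (1 / 4 : ℝ)) / t) := by
              apply mul_le_mul hw _ (by positivity) (by positivity)
              apply div_le_div_of_nonneg_right _ htp.le
              apply mul_le_mul_of_nonneg_left q1 hC2
          _ = 8 * A * C2 * ((t : ℝ) ^ (δ - 1) * ((t : ℝ) ^ (1 / 4 : ℝ) / t)) := by ring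
          _ ≤ 8 * A * C2 * (1 / (t : ℝ) ^ (1 + δ)) := by
              apply mul_le_mul_of_nonneg_left q2 (by positivity)
      calc (Psi t / t.totient) * (1 / Z + C2 * Real.log Z / t)
          = (Psi t / t.totient) * (1 / Z) + (Psi t / t.totient) * (C2 * Real.log Z / t) := by ring
        _ ≤ 2 * A * (1 / (t : ℝ) ^ (1 + δ)) + 8 * A * C2 * (1 / (t : ℝ) ^ (1 + δ)) :=
            add_le_add p1 p2
        _ = (2 * A + 8 * A * C2) * (1 * (1 / (t : ℝ) ^ (1 + δ))) := by ring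
        _ ≤ (A * A * C1 + 2 * A + 8 * A * C2) *
              ((Real.log Z) ^ (1 / 4 : ℝ) * (1 / (t : ℝ) ^ (1 + δ))) := by
            apply mul_le_mul
            · have : 0 ≤ A * A * C1 := by positivity
              linarith
            · apply mul_le_mul_of_nonneg_right hlog4 hs0.le
            · positivity
            · positivity
        _ = _ := by ring
  calc ∑ t ∈ Finset.Icc 1 (2 * Z ^ (5 * K)), (Psi t / t.totient) *
        (if t ^ 2 ≤ Z then C1 * (Real.log Z) ^ (1 / 4 : ℝ) / t.totient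
          else 1 / Z + C2 * Real.log Z / t)
      ≤ ∑ t ∈ Finset.Icc 1 (2 * Z ^ (5 * K)),
        (A * A * C1 + 2 * A + 8 * A * C2) * (Real.log Z) ^ (1 / 4 : ℝ) *
        (1 / (t : ℝ) ^ (1 + δ)) := Finset.sum_le_sum key
    _ = (A * A * C1 + 2 * A + 8 * A * C2) * (Real.log Z) ^ (1 / 4 : ℝ) *
        ∑ t ∈ Finset.Icc 1 (2 * Z ^ (5 * K)), (1 / (t : ℝ) ^ (1 + δ)) := by
        rw [Finset.mul_sum]
    _ ≤ (A * A * C1 + 2 * A + 8 * A * C2) * (Real.log Z) ^ (1 / 4 : ℝ) * c := by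
        apply mul_le_mul_of_nonneg_left (hc _) (by positivity)
    _ = _ := by ring

/-- NTSUM -/
theorem ntsum (hA : NapsumStmt) (hT : NaptrivStmt) (hU : NupStmt) (hG : NalgStmt) :
    NtsumStmt := by
  intro S K hS hK
  obtain ⟨C1, y1, h1⟩ := hA S K hS (by omega)
  obtain ⟨C2, h2⟩ := hT K (by omega)
  obtain ⟨C3, h3⟩ := hU S hS
  obtain ⟨C, hC0, hC⟩ := tsum_bound K hK |C1| |C2| (abs_nonneg _) (abs_nonneg _)
  refine ⟨(|C3| * (K : ℝ) ^ (1 / 4 : ℝ)) ^ 3 * C, max y1 3, ?_⟩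
  intro Z hZ
  have hZ1 : y1 ≤ Z := le_trans (le_max_left _ _) hZ
  have hZ3 : 3 ≤ Z := le_trans (le_max_right _ _) hZ
  have hZr : (3 : ℝ) ≤ Z := by exact_mod_cast hZ3
  have hZp : (0 : ℝ) < Z := by linarith
  have hlog1 : 1 ≤ Real.log Z := by
    rw [Real.le_log_iff_exp_le hZp]
    have := Real.exp_one_lt_d9
    linarith
  have hlog0 : 0 ≤ Real.log Z := by linarith
  set N := qset S Z (Z ^ K) with hN
  set R : ℕ → ℝ := fun t => if t ^ 2 ≤ Z then |C1| * (Real.log Z) ^ (1 / 4 : ℝ) / t.totient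
          else 1 / Z + |C2| * Real.log Z / t with hR
  set T := 2 * Z ^ (5 * K) with hTT
  have hinner : ∀ n v v' t : ℕ, 1 ≤ t →
      ∑ n' ∈ N.filter (fun n' => (t : ℤ) ∣ EE n v n' v' ∧
        t.Coprime (n * v * (n' * v'))), (1 : ℝ) / n' ≤ R t := by
    intro n v v' t ht
    refine inner_le S K |C1| |C2| Z ?_ ?_ (abs_nonneg _) (abs_nonneg _) hlog0 n v v' t ht
    · intro t a ht1 ht2 hat
      refine le_trans (h1 Z hZ1 t a ht1 ht2 hat) ?_
      apply div_le_div_of_nonneg_right _ (by positivity)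
      apply mul_le_mul_of_nonneg_right (le_abs_self _) (by positivity)
    · intro t a ht1
      refine le_trans (h2 Z t a (by omega) ht1) ?_
      apply add_le_add le_rfl
      apply div_le_div_of_nonneg_right _ (by positivity)
      apply mul_le_mul_of_nonneg_right (le_abs_self _) hlog0
  have hmemN : ∀ n ∈ N, 1 ≤ n ∧ n ≤ Z ^ K := by
    intro n hn
    rw [hN] at hn
    unfold qset at hn
    rw [Finset.mem_filter, Finset.mem_Ioc] at hn
    exact ⟨by omega, hn.1.2⟩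
  -- step 1: relax the sum
  have step1 : ∑ q ∈ (N ×ˢ N ×ˢ N ×ˢ N).filter
      (fun q => ¬ (q.1 = q.2.2.1 ∧ q.2.1 = q.2.2.2)),
    (1 / ((q.1 : ℝ) * q.2.1 * q.2.2.1 * q.2.2.2)) *
      ∑ t ∈ (EE q.1 q.2.1 q.2.2.1 q.2.2.2).natAbs.divisors.filter
          (fun t => t.Coprime (q.1 * q.2.1 * (q.2.2.1 * q.2.2.2))), Psi t / t.totient
    ≤ ∑ q ∈ N ×ˢ N ×ˢ N ×ˢ N, ∑ t ∈ Finset.Icc 1 T,
        (if (t : ℤ) ∣ EE q.1 q.2.1 q.2.2.1 q.2.2.2 ∧
            t.Coprime (q.1 * q.2.1 * (q.2.2.1 * q.2.2.2)) then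
          (1 / ((q.1 : ℝ) * q.2.1 * q.2.2.1 * q.2.2.2)) * (Psi t / t.totient) else 0) := by
    have hnn : ∀ (q : ℕ × ℕ × ℕ × ℕ) (t : ℕ), 0 ≤
        (if (t : ℤ) ∣ EE q.1 q.2.1 q.2.2.1 q.2.2.2 ∧
            t.Coprime (q.1 * q.2.1 * (q.2.2.1 * q.2.2.2)) then
          (1 / ((q.1 : ℝ) * q.2.1 * q.2.2.1 * q.2.2.2)) * (Psi t / t.totient) else 0) := by
      intro q t
      split_ifs
      · have := (psi_pos t).le
        positivity
      · exact le_rfl
    refine le_trans ?_ (Finset.sum_le_sum_of_subset_of_nonneg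
      (Finset.filter_subset (fun q => ¬ (q.1 = q.2.2.1 ∧ q.2.1 = q.2.2.2)) _)
      (fun q _ _ => Finset.sum_nonneg (fun t _ => hnn q t)))
    apply Finset.sum_le_sum
    intro q hq
    rw [Finset.mem_filter, Finset.mem_product, Finset.mem_product, Finset.mem_product] at hq
    obtain ⟨⟨q1, q2, q3, q4⟩, hne⟩ := hq
    have hE : EE q.1 q.2.1 q.2.2.1 q.2.2.2 ≠ 0 := by
      intro h0
      exact hne (hG.1 _ _ _ _ (hmemN _ q1).1 (hmemN _ q2).1 (hmemN _ q3).1 (hmemN _ q4).1 h0)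
    have hEb := hG.2.2 q.1 q.2.1 q.2.2.1 q.2.2.2 (Z ^ K) (hmemN _ q1).2 (hmemN _ q2).2
      (hmemN _ q3).2 (hmemN _ q4).2
    have hEb' : (EE q.1 q.2.1 q.2.2.1 q.2.2.2).natAbs ≤ T := by
      have h5 : ((EE q.1 q.2.1 q.2.2.1 q.2.2.2).natAbs : ℤ) ≤ 2 * ((Z ^ K : ℕ) : ℤ) ^ 5 := by
        rw [Int.natCast_natAbs]
        exact hEb
      have h6 : (EE q.1 q.2.1 q.2.2.1 q.2.2.2).natAbs ≤ 2 * (Z ^ K) ^ 5 := by
        exact_mod_cast h5
      rw [hTT]
      calc _ ≤ 2 * (Z ^ K) ^ 5 := h6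
        _ = 2 * Z ^ (5 * K) := by rw [← pow_mul, Nat.mul_comm K 5]
    rw [Finset.mul_sum]
    rw [← Finset.sum_filter]
    apply Finset.sum_le_sum_of_subset_of_nonneg
    · intro t ht
      rw [Finset.mem_filter, Nat.mem_divisors] at ht
      rw [Finset.mem_filter, Finset.mem_Icc]
      refine ⟨⟨?_, ?_⟩, ?_, ht.2⟩
      · rcases Nat.eq_zero_or_pos t with h0 | h0
        · exfalso
          rw [h0, Nat.zero_dvd] at ht
          exact ht.1.2 ht.1.1
        · exact h0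
      · exact le_trans (Nat.le_of_dvd (Nat.pos_of_ne_zero ht.1.2) ht.1.1) hEb'
      · exact Int.natCast_dvd.mpr ht.1.1
    · intro t _ _
      have := (psi_pos t).le
      positivity
  refine le_trans step1 ?_
  -- step 2: reorder
  have step2 : ∑ q ∈ N ×ˢ N ×ˢ N ×ˢ N, ∑ t ∈ Finset.Icc 1 T,
        (if (t : ℤ) ∣ EE q.1 q.2.1 q.2.2.1 q.2.2.2 ∧
            t.Coprime (q.1 * q.2.1 * (q.2.2.1 * q.2.2.2)) then
          (1 / ((q.1 : ℝ) * q.2.1 * q.2.2.1 * q.2.2.2)) * (Psi t / t.totient) else 0)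
      = ∑ n ∈ N, ∑ v ∈ N, ∑ v' ∈ N, ∑ t ∈ Finset.Icc 1 T, ∑ n' ∈ N,
        (if (t : ℤ) ∣ EE n v n' v' ∧ t.Coprime (n * v * (n' * v')) then
          (1 / ((n : ℝ) * v * n' * v')) * (Psi t / t.totient) else 0) := by
    rw [Finset.sum_product]
    apply Finset.sum_congr rfl
    intro n _
    rw [Finset.sum_product]
    apply Finset.sum_congr rfl
    intro v _
    rw [Finset.sum_product, Finset.sum_comm]
    apply Finset.sum_congr rfl
    intro v' _
    rw [Finset.sum_comm]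
  rw [step2]
  -- step 3
  have step3 : ∀ n v v' t : ℕ, t ∈ Finset.Icc 1 T → ∑ n' ∈ N,
        (if (t : ℤ) ∣ EE n v n' v' ∧ t.Coprime (n * v * (n' * v')) then
          (1 / ((n : ℝ) * v * n' * v')) * (Psi t / t.totient) else 0) ≤
      (1 / (n : ℝ)) * ((1 / (v : ℝ)) * ((1 / (v' : ℝ)) * ((Psi t / t.totient) * R t))) := by
    intro n v v' t ht
    rw [Finset.mem_Icc] at ht
    rw [← Finset.sum_filter]
    have e : ∀ n' : ℕ, (1 / ((n : ℝ) * v * n' * v')) * (Psi t / t.totient) =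
        ((1 / (n : ℝ)) * ((1 / (v : ℝ)) * ((1 / (v' : ℝ)) * (Psi t / t.totient)))) *
          (1 / (n' : ℝ)) := by
      intro n'
      simp only [one_div, mul_inv]
      ring
    rw [Finset.sum_congr rfl (fun n' _ => e n'), ← Finset.mul_sum]
    have hw0 : 0 ≤ Psi t / t.totient := div_nonneg (psi_pos t).le (by positivity)
    calc _ ≤ ((1 / (n : ℝ)) * ((1 / (v : ℝ)) * ((1 / (v' : ℝ)) * (Psi t / t.totient)))) * R t := by
          apply mul_le_mul_of_nonneg_left (hinner n v v' t ht.1) (by positivity)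
      _ = _ := by ring
  have hsum : ∑ n ∈ N, (1 : ℝ) / n ≤ |C3| * (K : ℝ) ^ (1 / 4 : ℝ) * (Real.log Z) ^ (1 / 4 : ℝ) := by
    have hKpos : 1 ≤ K := by omega
    have hy : 3 ≤ Z ^ K := by
      calc 3 ≤ Z := hZ3
        _ = Z ^ 1 := (pow_one Z).symm
        _ ≤ Z ^ K := Nat.pow_le_pow_right (by omega) hKpos
    have h5 := (h3 3 (Z ^ K) le_rfl hy).2
    calc ∑ n ∈ N, (1 : ℝ) / n ≤ ∑ n ∈ qset S 0 (Z ^ K), (1 : ℝ) / n := by
          apply Finset.sum_le_sum_of_subset_of_nonneg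
          · intro x hx
            rw [hN] at hx
            unfold qset at hx ⊢
            rw [Finset.mem_filter, Finset.mem_Ioc] at hx ⊢
            exact ⟨⟨by omega, hx.1.2⟩, hx.2⟩
          · intro i _ _
            positivity
      _ ≤ C3 * (Real.log ((Z ^ K : ℕ) : ℝ)) ^ (1 / 4 : ℝ) := h5
      _ ≤ |C3| * (Real.log ((Z ^ K : ℕ) : ℝ)) ^ (1 / 4 : ℝ) := by
          apply mul_le_mul_of_nonneg_right (le_abs_self _)
          apply Real.rpow_nonneg
          apply Real.log_natCast_nonneg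
      _ = |C3| * (K : ℝ) ^ (1 / 4 : ℝ) * (Real.log Z) ^ (1 / 4 : ℝ) := by
          rw [Nat.cast_pow, Real.log_pow, Real.mul_rpow (by positivity) hlog0]
          ring
  have hR0 : ∀ t ∈ Finset.Icc 1 T, 0 ≤ (Psi t / t.totient) * R t := by
    intro t ht
    have := (psi_pos t).le
    apply mul_nonneg (by positivity)
    rw [hR]
    dsimp only
    split_ifs <;> positivity
  have hCZ := hC Z hZ3
  calc ∑ n ∈ N, ∑ v ∈ N, ∑ v' ∈ N, ∑ t ∈ Finset.Icc 1 T, ∑ n' ∈ N,
        (if (t : ℤ) ∣ EE n v n' v' ∧ t.Coprime (n * v * (n' * v')) then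
          (1 / ((n : ℝ) * v * n' * v')) * (Psi t / t.totient) else 0)
      ≤ ∑ n ∈ N, ∑ v ∈ N, ∑ v' ∈ N, ∑ t ∈ Finset.Icc 1 T,
        (1 / (n : ℝ)) * ((1 / (v : ℝ)) * ((1 / (v' : ℝ)) * ((Psi t / t.totient) * R t))) := by
        apply Finset.sum_le_sum
        intro n _
        apply Finset.sum_le_sum
        intro v _
        apply Finset.sum_le_sum
        intro v' _
        apply Finset.sum_le_sum
        intro t ht
        exact step3 n v v' t ht
    _ = (∑ n ∈ N, (1 : ℝ) / n) * ((∑ n ∈ N, (1 : ℝ) / n) * ((∑ n ∈ N, (1 : ℝ) / n) *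
        ∑ t ∈ Finset.Icc 1 T, (Psi t / t.totient) * R t)) := by
        rw [Finset.sum_mul]
        apply Finset.sum_congr rfl
        intro n _
        rw [Finset.sum_mul, Finset.mul_sum]
        apply Finset.sum_congr rfl
        intro v _
        rw [Finset.sum_mul, Finset.mul_sum, Finset.mul_sum]
        apply Finset.sum_congr rfl
        intro v' _
        rw [Finset.mul_sum, Finset.mul_sum, Finset.mul_sum]
    _ ≤ (|C3| * (K : ℝ) ^ (1 / 4 : ℝ) * (Real.log Z) ^ (1 / 4 : ℝ)) *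
        ((|C3| * (K : ℝ) ^ (1 / 4 : ℝ) * (Real.log Z) ^ (1 / 4 : ℝ)) *
        ((|C3| * (K : ℝ) ^ (1 / 4 : ℝ) * (Real.log Z) ^ (1 / 4 : ℝ)) *
        (C * (Real.log Z) ^ (1 / 4 : ℝ)))) := by
        have hs0 : 0 ≤ ∑ n ∈ N, (1 : ℝ) / n := Finset.sum_nonneg (fun n _ => by positivity)
        have ht0 : 0 ≤ ∑ t ∈ Finset.Icc 1 T, (Psi t / t.totient) * R t := Finset.sum_nonneg hR0
        apply mul_le_mul hsum _ (by positivity) (by positivity)
        apply mul_le_mul hsum _ (by positivity) (by positivity)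
        apply mul_le_mul hsum _ (by positivity) (by positivity)
        exact hCZ
    _ = (|C3| * (K : ℝ) ^ (1 / 4 : ℝ)) ^ 3 * C * ((Real.log Z) ^ (1 / 4 : ℝ)) ^ 4 := by ring
    _ = (|C3| * (K : ℝ) ^ (1 / 4 : ℝ)) ^ 3 * C * Real.log Z := by
        congr 1
        rw [← Real.rpow_natCast, ← Real.rpow_mul hlog0]
        norm_num

end Pool.Agent.Lib.MP_ba0fa5_ag.H51
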